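import Pool.Agent.Q196.TwoSing3

/-!
# A `G`-manifold with two different singular orbits and almost nonnegative curvature

The notions are defined in `Pool.Agent.Q196.GManDefs`, `Pool.Agent.Q196.GManDefs2` and
`Pool.Agent.H839R2.Geo.Stmt`.

The example: `G = SU(2) × U(1)` (unit quaternions times unit complex numbers) acts on the unit
sphere `S⁷` of `ℍ²` by `(g, t) · (v, w) = (g v, g w t⁻¹)`. The isotropy groups are trivial except
on the two 3-spheres `w = 0` and `v = 0`, which are single orbits, with isotropy groups
`1 × U(1)` (normal in `G`) and `{(w t w⁻¹, t)}` (not normal in `G`). The round metrics on `S⁷` have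
positive curvature.
-/

open scoped Manifold ContDiff
open Q196.GMan Pool.Agent.H839R2.Stmt

namespace Pool.Agent.Results.MP_9877a5_gt.SevenSphere

/-- There are a compact connected Lie group `G` acting smoothly and effectively on a closed
connected manifold `M`, with finitely many non-principal orbits, cohomogeneity three and exactly two
singular orbits, whose isotropy groups are not related by any automorphism of the group `G` (so the
orbits are not identical), such that `M` admits almost nonnegative sectional curvature. -/
theorem result :
    ∃ (EG : Type) (_ : NormedAddCommGroup EG) (_ : NormedSpace ℝ EG)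
      (HG : Type) (_ : TopologicalSpace HG) (IG : ModelWithCorners ℝ EG HG)
      (G : Type) (_ : TopologicalSpace G) (_ : ChartedSpace HG G) (_ : Group G)
      (_ : LieGroup IG ∞ G)
      (E : Type) (_ : NormedAddCommGroup E) (_ : NormedSpace ℝ E) (_ : FiniteDimensional ℝ E)
      (H : Type) (_ : TopologicalSpace H) (I : ModelWithCorners ℝ E H)
      (M : Type) (_ : TopologicalSpace M) (_ : ChartedSpace H M) (_ : IsManifold I ∞ M)
      (_ : MulAction G M),
      (FiniteDimensional ℝ EG ∧ IG.Boundaryless ∧ CompactSpace G ∧ ConnectedSpace G ∧
        T2Space G) ∧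
      (I.Boundaryless ∧ CompactSpace M ∧ T2Space M ∧ ConnectedSpace M) ∧
      SmoothAction IG G I M ∧ FaithfulSMul G M ∧ (nonPrincipalOrbits G M).Finite ∧
      HasCohomogeneity IG G I M 3 ∧ HasTwoDifferentSingularOrbits IG G I M ∧
      AlmostNonnegCurvature I M := by
  refine ⟨Q196.TS.EGG, inferInstance, inferInstance, _, inferInstance,
    (𝓡 3).prod (𝓡 1), Q196.TS.GG, inferInstance, inferInstance, inferInstance,
    inferInstance, EuclideanSpace ℝ (Fin 7), inferInstance, inferInstance, inferInstance,
    EuclideanSpace ℝ (Fin 7), inferInstance, 𝓡 7, Q196.TS.S7, inferInstance, inferInstance,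
    inferInstance, inferInstance,
    ⟨inferInstance, inferInstance, inferInstance, inferInstance, inferInstance⟩,
    ⟨inferInstance, inferInstance, inferInstance, inferInstance⟩,
    Q196.TS.contMDiff_act7, Q196.TS.faithful, Q196.TS.finite_nonPrincipal7,
    Q196.TS.hasCohomogeneity7, Q196.TS.twoDifferent,
    Q196.Round.almostNonneg_round (by norm_num)⟩

end Pool.Agent.Results.MP_9877a5_gt.SevenSphere
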